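import Pool.Agent.H69.CD.Gpo
import Pool.Agent.H98.D2.Tgr
import Pool.Agent.H73.D2.Tsl
import Pool.Agent.H92.D2.Imc

/-!
# V1 empty: the end in one shot

`vel_end`: if the own velocity is dead (`VelF`), then there are tube labels of the precision of the
balls which contain the own path. No induction on the precision.
-/

set_option autoImplicit false

namespace Pool.V1E

open Finset Real
open Pool.Agent.H49.Ent Pool.Agent.H32.Dense Pool.STK Pool.D2A Pool.D2Con Pool.KAF Pool.KVA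
open Pool.BFL (Pb)
open Pool.D2G30 Pool.D2N
open Pool.SLO (tup tup_nonneg tup_isLaw tup_pos_iff)
open Pool.POT (im_tup)
open MvPolynomial (eval pderiv)

section one

variable {K d D CM Q MB k N₀ : ℕ} {δ : ℝ} {Ω Λ ζ α ε κ : Type} [Fintype Ω] {q : Ω → ℝ}
  {L : Ω → Λ} {T : Ω → ℕ} {Z : Ω → ζ} {a : Ω → α} {E : Ω → ε} {X : ε → Fin (d + 1) → ℝ}
  {Pf : ζ → MvPolynomial (Fin d) ℝ} {Pg : ζ → Fin (d + 1) → MvPolynomial (Fin d) ℝ}
  {c : Λ → κ} {s : Ω → Fin d → ℝ} {ξ : Λ → Fin d → ℝ} {n : Λ → Polynomial ℝ}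
  {Θ : Λ → Fin d → Polynomial ℝ}

/-- **One sample**: the gradients at the nodes of the tube, given the code of the tube, the velocity
and the time. -/
theorem grad_oneA (hT : TL K d D CM Q MB k N₀ δ q L T Z a E X Pf Pg c s ξ n Θ)
    (hG : GradA K d Q MB δ q Z a Pg) :
    CH q (fun ω => cel (2 ^ (MB - Q)) (fun b : Gr K d × Fin d =>
        eval (fun i' => s ω i' + nd K b.1 i') (Pg (Z ω) b.2.succ)))
      (fun ω => (c (L ω), (E ω, T ω))) ≤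
      2 * (δ * Q) + (K + 1) ^ d * d * Real.log (2 * (iC K d + 1) + 1) := by
  classical
  have hq := hT.law
  have h0 := hq.nonneg
  have hK := hT.hK
  obtain ⟨W, hW⟩ : ∃ W : Ω → κ × (ε × ℕ), W = fun ω => (c (L ω), (E ω, T ω)) := ⟨_, rfl⟩
  obtain ⟨Y, hY⟩ : ∃ Y : Ω → Gr K d × Fin (d + 1) → ℤ,
    Y = fun ω b => ⌊2 ^ (MB - Q) * eval (nd K b.1) (Pg (Z ω) b.2)⌋ := ⟨_, rfl⟩
  obtain ⟨X3, hX3⟩ : ∃ X3 : Ω → Gr K d × Fin d → ℤ, X3 = fun ω => cel (2 ^ (MB - Q))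
    (fun b : Gr K d × Fin d => eval (fun i' => s ω i' + nd K b.1 i') (Pg (Z ω) b.2.succ)) :=
    ⟨_, rfl⟩
  rw [← hW, ← hX3]
  -- the record of the window
  have c1 : CH q a W ≤ δ * Q := by
    refine (CH_mono_cond h0 fun ω ω' _ _ h => ?_).trans hT.afew
    rw [hW] at h
    obtain ⟨e1, e2⟩ := Prod.ext_iff.1 h
    exact Prod.ext e1 (Prod.ext_iff.1 e2).2
  have c2 := CH_le_add h0 X3 a W
  have c4 := CH_le_add h0 X3 Y (fun ω => (a ω, W ω))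
  -- the shift
  have sdet : ∀ ω ω', 0 < q ω → 0 < q ω' → a ω = a ω' → W ω = W ω' → s ω = s ω' := by
    intro ω ω' hω hω' e1 e2
    rw [hW] at e2
    obtain ⟨e3, e4⟩ := Prod.ext_iff.1 e2
    exact hT.sc ω ω' hω hω' (Prod.ext e3 (Prod.ext (Prod.ext_iff.1 e4).1 e1))
  -- the gradients at the nodes of the corner
  have k3 : CH q Y (fun ω => (a ω, W ω)) ≤ δ * Q := by
    refine (CH_mono_cond h0 fun ω ω' _ _ h => (Prod.ext_iff.1 h).1).trans ?_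
    rw [hY]
    exact hG
  -- the shifted nodes
  have k4 : CH q X3 (fun ω => (Y ω, (a ω, W ω))) ≤
      (K + 1) ^ d * d * Real.log (2 * (iC K d + 1) + 1) := by
    have h1 := CH_vec_le h0 hq.sum_one X3 (fun ω => (Y ω, (a ω, W ω)))
      (L := iC K d + 1) (by
        intro ω ω' hω hω' h b
        obtain ⟨e1, e3⟩ := Prod.ext_iff.1 h
        obtain ⟨e4, e5⟩ := Prod.ext_iff.1 e3
        have es := sdet ω ω' hω hω' e4 e5
        rw [hX3]
        show |((⌊2 ^ (MB - Q) * eval (fun i' => s ω i' + nd K b.1 i') (Pg (Z ω) b.2.succ)⌋ -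
          ⌊2 ^ (MB - Q) * eval (fun i' => s ω' i' + nd K b.1 i') (Pg (Z ω') b.2.succ)⌋ : ℤ) : ℝ)|
          ≤ _
        refine (floor_diff _ _).trans (add_le_add ?_ le_rfl)
        rw [← es]
        rw [ell_interp hK (Pg (Z ω) b.2.succ) (hT.dgg _ _) (fun i' => s ω i' + nd K b.1 i'),
          ell_interp hK (Pg (Z ω') b.2.succ) (hT.dgg _ _) (fun i' => s ω i' + nd K b.1 i'),
          Finset.mul_sum, Finset.mul_sum]
        have b1 : ∀ x : Ω, ∑ β : Fin d → Fin (K + 1), 2 ^ (MB - Q) *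
            (Pool.D2G30.ell K β (fun i' => s ω i' + nd K b.1 i') *
              eval (nd K β) (Pg (Z x) b.2.succ)) =
            ∑ β : Fin d → Fin (K + 1), Pool.D2G30.ell K β (fun i' => s ω i' + nd K b.1 i') *
              (2 ^ (MB - Q) * eval (nd K β) (Pg (Z x) b.2.succ)) := fun x =>
          Finset.sum_congr rfl fun β _ => by ring
        rw [b1, b1]
        refine (ell_sum_near (δ := 1) _ _ (fun β => ?_) (fun i => ?_) (fun i => ?_)).trans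
          (by rw [mul_one])
        · rw [hY] at e1
          exact (Int.abs_sub_lt_one_of_floor_eq_floor (congrFun e1 (β, b.2.succ))).le
        · have c1 := abs_le.1 (hT.s1 ω hω i)
          have c2 := nd_nonneg b.1 i
          linarith [c1.1]
        · have c1 := abs_le.1 (hT.s1 ω hω i)
          have c2 := nd_le_one b.1 i
          linarith [c1.2])
    rw [Fintype.card_prod, card_grid, Fintype.card_fin] at h1
    push_cast at h1
    exact h1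
  linarith

end one

/-- **The gradients at the times of a tuple.** -/
theorem tup_gradA (K d D CM : ℕ) {eps : ℝ} (heps : 0 < eps) : ∃ δ : ℝ, 0 < δ ∧ ∃ Q₀ : ℕ,
    ∀ {Q MB k N₀ : ℕ}, Q₀ ≤ Q →
    ∀ {Ω Λ ζ α ε κ : Type} [Fintype Ω] {q : Ω → ℝ} {L : Ω → Λ} {T : Ω → ℕ} {Z : Ω → ζ}
      {a : Ω → α} {E : Ω → ε} {X : ε → Fin (d + 1) → ℝ} {Pf : ζ → MvPolynomial (Fin d) ℝ}
      {Pg : ζ → Fin (d + 1) → MvPolynomial (Fin d) ℝ} {c : Λ → κ} {s : Ω → Fin d → ℝ}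
      {ξ : Λ → Fin d → ℝ} {n : Λ → Polynomial ℝ} {Θ : Λ → Fin d → Polynomial ℝ},
    TL K d D CM Q MB k N₀ δ q L T Z a E X Pf Pg c s ξ n Θ →
    CH q (fun ω => c (L ω)) (fun ω => (E ω, a ω)) ≤ δ * Q → GradA K d Q MB δ q Z a Pg →
    (∀ i : Fin (D + 2), CH (tup q L (D + 1)) (fun v => cel (2 ^ (MB - Q))
        (fun b : Gr K d × Fin d =>
          eval (fun i' => s (v i) i' + nd K b.1 i') (Pg (Z (v i)) b.2.succ)))
        (fun v => (Z (v 0), (E (v 0), fun j => T (v j)))) ≤ eps * Q) ∧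
    d * (k * Real.log 2) - eps * Q ≤ CH (tup q L (D + 1)) (fun v => xd k L ξ (v 0))
      (fun v => (Z (v 0), (E (v 0), fun j => T (v j)))) := by
  have hiC := one_le_iC K d
  obtain ⟨A, hA⟩ : ∃ A : ℝ, A = (K + 1) ^ d * d * Real.log (2 * (iC K d + 1) + 1) := ⟨_, rfl⟩
  obtain ⟨δ, hδ⟩ : ∃ δ : ℝ, δ = eps / (2 * (D + 4)) := ⟨_, rfl⟩
  have hD0 : (0 : ℝ) ≤ D := Nat.cast_nonneg D
  have δ0 : 0 < δ := by rw [hδ]; positivity
  have hδD : δ * (2 * (D + 4)) = eps := by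
    rw [hδ]
    field_simp
  obtain ⟨Q₀, hQ₀⟩ := exists_nat_ge (2 * A / eps)
  refine ⟨δ, δ0, Q₀, ?_⟩
  intro Q MB k N₀ hQ Ω Λ ζ α ε κ _ q L T Z a E X Pf Pg c s ξ n Θ hT hc hG
  have hq := hT.law
  have h0 := hq.nonneg
  have hQ0 : (0 : ℝ) ≤ Q := Nat.cast_nonneg Q
  have P0 : ∀ v, 0 ≤ tup q L (D + 1) v := fun v => tup_nonneg h0 L _ v
  have hline : ∀ v, 0 < tup q L (D + 1) v → ∀ j, 0 < q (v j) ∧ L (v j) = L (v 0) := fun v hv j =>
    ⟨((tup_pos_iff h0 L _ v).1 hv).1 j, ((tup_pos_iff h0 L _ v).1 hv).2 j⟩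
  have hδQ : 0 ≤ δ * Q := by positivity
  have e0 : δ * Q * (2 * (D + 4)) = eps * Q := by rw [← hδD]; ring
  refine ⟨fun i => ?_, ?_⟩
  · have h1 := CH_le_add P0 (fun v : Fin (D + 1 + 1) → Ω => cel (2 ^ (MB - Q))
      (fun b : Gr K d × Fin d =>
        eval (fun i' => s (v i) i' + nd K b.1 i') (Pg (Z (v i)) b.2.succ)))
      (fun v => c (L (v 0))) (fun v => (Z (v 0), (E (v 0), fun j => T (v j))))
    have h2 : CH (tup q L (D + 1)) (fun v => c (L (v 0)))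
        (fun v => (Z (v 0), (E (v 0), fun j => T (v j)))) ≤ δ * Q := by
      have e1 := (im_tup h0 L (D + 1) 0).CH (fun ω => c (L ω)) (fun ω => (E ω, a ω))
      rw [← e1] at hc
      refine (CH_mono_cond P0 fun v v' hv hv' h => ?_).trans hc
      obtain ⟨f1, f2⟩ := Prod.ext_iff.1 h
      have f1' : Z (v 0) = Z (v' 0) := f1
      refine Prod.ext (Prod.ext_iff.1 f2).1 ?_
      exact hT.Za _ _ (hline v hv 0).1 (hline v' hv' 0).1 f1'
    have h3 : CH (tup q L (D + 1)) (fun v => cel (2 ^ (MB - Q)) (fun b : Gr K d × Fin d =>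
          eval (fun i' => s (v i) i' + nd K b.1 i') (Pg (Z (v i)) b.2.succ)))
        (fun v => (c (L (v 0)), (Z (v 0), (E (v 0), fun j => T (v j))))) ≤
        2 * (δ * Q) + A := by
      have e1 := (im_tup h0 L (D + 1) i).CH (fun ω => cel (2 ^ (MB - Q))
        (fun b : Gr K d × Fin d => eval (fun i' => s ω i' + nd K b.1 i') (Pg (Z ω) b.2.succ)))
        (fun ω => (c (L ω), (E ω, T ω)))
      have e2 := grad_oneA hT hG
      rw [← e1, ← hA] at e2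
      refine (CH_mono_cond P0 fun v v' hv hv' h => ?_).trans e2
      obtain ⟨f1, f2⟩ := Prod.ext_iff.1 h
      obtain ⟨f3, f4⟩ := Prod.ext_iff.1 f2
      obtain ⟨f5, f6⟩ := Prod.ext_iff.1 f4
      have g1 : c (L (v 0)) = c (L (v' 0)) := f1
      have g2 : E (v 0) = E (v' 0) := f5
      have g3 : T (v i) = T (v' i) := congrFun f6 i
      have g4 : E (v i) = E (v 0) := hT.LE _ _ (hline v hv i).1 (hline v hv 0).1 (hline v hv i).2
      have g5 : E (v' i) = E (v' 0) :=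
        hT.LE _ _ (hline v' hv' i).1 (hline v' hv' 0).1 (hline v' hv' i).2
      show (c (L (v i)), (E (v i), T (v i))) = (c (L (v' i)), (E (v' i), T (v' i)))
      rw [(hline v hv i).2, (hline v' hv' i).2, g4, g5, g1, g2, g3]
    have h4 : A ≤ eps / 2 * Q := by
      have h5 : 2 * A / eps ≤ Q := hQ₀.trans (by exact_mod_cast hQ)
      rw [div_le_iff₀ heps] at h5
      linarith
    nlinarith
  · have h1 := tup_times hq L hT.Tlt hT.Tfull D (fun ω => (Z ω, E ω)) (xd k L ξ)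
    have h2 := hT.full
    have h3 : CH (tup q L (D + 1)) (fun v => xd k L ξ (v 0))
        (fun v => ((fun j : Fin (D + 1) => T (v j.succ)), (Z (v 0), E (v 0)))) ≤
        CH (tup q L (D + 1)) (fun v => xd k L ξ (v 0))
          (fun v => (Z (v 0), (E (v 0), fun j => T (v j)))) := by
      refine CH_mono_cond P0 fun v v' hv hv' h => ?_
      obtain ⟨f1, f2⟩ := Prod.ext_iff.1 h
      obtain ⟨f3, f4⟩ := Prod.ext_iff.1 f2
      have f3' : Z (v 0) = Z (v' 0) := f3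
      refine Prod.ext f3 (Prod.ext f4 ?_)
      funext j
      show T (v j) = T (v' j)
      refine Fin.cases ?_ (fun j' => ?_) j
      · exact hT.ZT _ _ (hline v hv 0).1 (hline v' hv' 0).1 f3'
      · exact congrFun f1 j'
    nlinarith

/-- **The closed polynomials.** -/
theorem ball_wtsA (K d D CM : ℕ) {ε : ℝ} (hε : 0 < ε) : ∃ δ : ℝ, 0 < δ ∧ ∃ Q₀ : ℕ,
    ∀ {Q MB k N₀ : ℕ}, Q₀ ≤ Q →
    ∀ {Ω Λ ζ α ε' κ : Type} [Fintype Ω] {q : Ω → ℝ} {L : Ω → Λ} {T : Ω → ℕ} {Z : Ω → ζ}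
      {a : Ω → α} {E : Ω → ε'} {X : ε' → Fin (d + 1) → ℝ} {Pf : ζ → MvPolynomial (Fin d) ℝ}
      {Pg : ζ → Fin (d + 1) → MvPolynomial (Fin d) ℝ} {c : Λ → κ} {s : Ω → Fin d → ℝ}
      {ξ : Λ → Fin d → ℝ} {n : Λ → Polynomial ℝ} {Θ : Λ → Fin d → Polynomial ℝ},
    TL K d D CM Q MB k N₀ δ q L T Z a E X Pf Pg c s ξ n Θ →
    CH q (fun ω => c (L ω)) (fun ω => (E ω, a ω)) ≤ δ * Q → GradA K d Q MB δ q Z a Pg →
    ∃ Pt : Λ → Gr K d → Polynomial ℝ, (∀ l β, (Pt l β).natDegree ≤ D) ∧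
      (∀ l β j, |(Pt l β).coeff j| ≤ 2 ^ (ε * Q)) ∧
      Pb q (fun ω => ∃ β, 2 ^ (ε * Q) / 2 ^ MB <
        |vt K Z Pf s ω β - (Pt (L ω) β).eval (uu N₀ T ω)|) ≤ ε := by
  obtain ⟨δ₁, hδ₁, Q₁, hw⟩ := wts D hε
  obtain ⟨δ₂, hδ₂, Q₂, ht⟩ := tup_small K d D CM (D + 1) (lw_wgt D) hδ₁
  obtain ⟨δ₃, hδ₃, Q₃, hg⟩ := tup_gradA K d D CM hδ₂
  have hiC := one_le_iC K d
  obtain ⟨Q₄, hQ₄⟩ := exists_nat_ge (Real.log (iC K d) / (δ₁ / 2 * Real.log 2))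
  have hL : 0 < Real.log 2 := Real.log_pos (by norm_num)
  obtain ⟨δ, hδ⟩ : ∃ δ : ℝ, δ = min (min δ₂ δ₃) (min δ₁ (δ₁ / 2)) := ⟨_, rfl⟩
  have hδ0 : 0 < δ := by
    rw [hδ]
    exact lt_min (lt_min hδ₂ hδ₃) (lt_min hδ₁ (by linarith))
  have d2 : δ ≤ δ₂ := by
    rw [hδ]
    exact (min_le_left _ _).trans (min_le_left _ _)
  have d3 : δ ≤ δ₃ := by
    rw [hδ]
    exact (min_le_left _ _).trans (min_le_right _ _)
  have d1 : δ ≤ δ₁ := by
    rw [hδ]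
    exact (min_le_right _ _).trans (min_le_left _ _)
  have d1' : δ ≤ δ₁ / 2 := by
    rw [hδ]
    exact (min_le_right _ _).trans (min_le_right _ _)
  refine ⟨δ, hδ0, max (max Q₁ Q₂) (max Q₃ Q₄), ?_⟩
  intro Q MB k N₀ hQ Ω Λ ζ α ε' κ _ q L T Z a E X Pf Pg c s ξ n Θ hT hc hG
  have e1 : Q₁ ≤ Q := ((le_max_left _ _).trans (le_max_left _ _)).trans hQ
  have e2 : Q₂ ≤ Q := ((le_max_right _ _).trans (le_max_left _ _)).trans hQ
  have e3 : Q₃ ≤ Q := ((le_max_left _ _).trans (le_max_right _ _)).trans hQ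
  have e4 : Q₄ ≤ Q := ((le_max_right _ _).trans (le_max_right _ _)).trans hQ
  have hq := hT.law
  have h0 := hq.nonneg
  have hQ0 : (0 : ℝ) ≤ Q := Nat.cast_nonneg Q
  obtain ⟨g1, g2⟩ := hg e3 (hT.mono d3) (hc.trans (mul_le_mul_of_nonneg_right d3 hQ0))
    (hG.trans (mul_le_mul_of_nonneg_right d3 hQ0))
  have t1 := ht e2 hT.hQ le_rfl (hT.mono d2) g1 g2
  refine hw e1 hT.hN hq hT.Tlt ((by
    have := mul_le_mul_of_nonneg_right d1 hQ0
    linarith [hT.Tfull])) ?_ t1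
  intro ω hω β
  have h1 := val_small hT.hK (Pf (Z ω)) (hT.dgf _) (ε := 2 ^ (δ * (Q : ℝ))) (hT.bdf ω hω)
    (x := fun i => s ω i + nd K β i)
    (fun i => by
      have h2 := abs_le.1 (hT.s1 ω hω i)
      have h3 := nd_nonneg β i
      linarith [h2.1])
    (fun i => by
      have h2 := abs_le.1 (hT.s1 ω hω i)
      have h3 := nd_le_one β i
      linarith [h2.2])
  unfold vt
  refine h1.trans ?_
  show iC K d * 2 ^ (δ * (Q : ℝ)) ≤ 2 ^ (δ₁ * (Q : ℝ))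
  have h4 : iC K d ≤ 2 ^ (δ₁ / 2 * (Q : ℝ)) := by
    rw [← Real.log_le_log_iff (by linarith) (by positivity), Real.log_rpow (by norm_num)]
    have h5 : Real.log (iC K d) / (δ₁ / 2 * Real.log 2) ≤ Q :=
      hQ₄.trans (by exact_mod_cast e4)
    rw [div_le_iff₀ (by positivity)] at h5
    linarith
  have h6 : (2 : ℝ) ^ (δ * (Q : ℝ)) ≤ 2 ^ (δ₁ / 2 * (Q : ℝ)) :=
    Real.rpow_le_rpow_of_exponent_le (by norm_num) (mul_le_mul_of_nonneg_right d1' hQ0)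
  calc iC K d * 2 ^ (δ * (Q : ℝ)) ≤ 2 ^ (δ₁ / 2 * (Q : ℝ)) * 2 ^ (δ₁ / 2 * (Q : ℝ)) :=
        mul_le_mul h4 h6 (by positivity) (by positivity)
    _ = _ := by
        rw [← Real.rpow_add (by norm_num)]
        congr 1
        ring

/-- **The end in one shot**: dead velocity ⟹ tube labels of the precision of the balls. -/
theorem vel_end (K d D CM : ℕ) {ε : ℝ} (hε : 0 < ε) : ∃ δ : ℝ, 0 < δ ∧ δ ≤ ε ∧ ∃ Q₀ : ℕ,
    ∀ {Q MB k N₀ : ℕ}, Q₀ ≤ Q →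
    ∀ {Ω Λ ζ α ε' κ : Type} [Fintype Ω] {q : Ω → ℝ} {L : Ω → Λ} {T : Ω → ℕ} {Z : Ω → ζ}
      {a : Ω → α} {E : Ω → ε'} {X : ε' → Fin (d + 1) → ℝ} {Pf : ζ → MvPolynomial (Fin d) ℝ}
      {Pg : ζ → Fin (d + 1) → MvPolynomial (Fin d) ℝ} {c : Λ → κ} {s : Ω → Fin d → ℝ}
      {ξ : Λ → Fin d → ℝ} {n : Λ → Polynomial ℝ} {Θ : Λ → Fin d → Polynomial ℝ},
    TL K d D CM Q MB k N₀ δ q L T Z a E X Pf Pg c s ξ n Θ →
    CH q (fun ω => c (L ω)) (fun ω => (E ω, a ω)) ≤ δ * Q → VelF Q MB k N₀ δ q L T a E c ξ n →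
    ∃ P, ImC K d D Q MB N₀ ε q L T Z Pf s ξ n P := by
  obtain ⟨δ₂, δ₂0, δ₂ε, Q₂, h2⟩ := imc_new K d D CM hε
  obtain ⟨δ₃, δ₃0, Q₃, h3⟩ := ball_wtsA K d D CM δ₂0
  obtain ⟨δ₄, δ₄0, δ₄ε, Q₄, h4⟩ := grad_pos K d D CM δ₃0
  obtain ⟨δ, hδ⟩ : ∃ δ : ℝ, δ = min δ₄ (min δ₃ δ₂) := ⟨_, rfl⟩
  have d4 : δ ≤ δ₄ := by rw [hδ]; exact min_le_left _ _
  have d3 : δ ≤ δ₃ := by rw [hδ]; exact (min_le_right _ _).trans (min_le_left _ _)
  have d2 : δ ≤ δ₂ := by rw [hδ]; exact (min_le_right _ _).trans (min_le_right _ _)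
  refine ⟨δ, by rw [hδ]; exact lt_min δ₄0 (lt_min δ₃0 δ₂0), d2.trans δ₂ε,
    max Q₂ (max Q₃ Q₄), ?_⟩
  intro Q MB k N₀ hQ Ω Λ ζ α ε' κ _ q L T Z a E X Pf Pg c s ξ n Θ hT hc hv
  have q2 : Q₂ ≤ Q := (le_max_left _ _).trans hQ
  have q3 : Q₃ ≤ Q := ((le_max_left _ _).trans (le_max_right _ _)).trans hQ
  have q4 : Q₄ ≤ Q := ((le_max_right _ _).trans (le_max_right _ _)).trans hQ
  have hQ0 : (0 : ℝ) ≤ Q := Nat.cast_nonneg Q
  have g := h4 q4 (hT.mono d4) (hc.trans (mul_le_mul_of_nonneg_right d4 hQ0))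
    (hv.trans (mul_le_mul_of_nonneg_right d4 hQ0))
  obtain ⟨Pt, p1, p2, p3⟩ := h3 q3 (hT.mono d3)
    (hc.trans (mul_le_mul_of_nonneg_right d3 hQ0)) g
  exact h2 q2 le_rfl (hT.mono d2) Pt p1 p2 p3

end Pool.V1E
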