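import Pool.Agent.H69.CD.Pos

/-!
# V1 empty: the velocity at the own position reads the velocity polynomial

`VelF`: the own velocity is few bits given the record of the window, the time, the corner, the code of
the tube, the code of the velocity and the digits of the position in the tube. `vel_pos`: then the
velocities at the nodes of the corner grid are few bits given `(E, a)`.
-/

set_option autoImplicit false

namespace Pool.V1E

open Finset Real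
open Pool.Agent.H49.Ent Pool.Agent.H32.Dense Pool.STK Pool.D2A Pool.D2Con
open Pool.BFL (Pb)
open Pool.D2G30
open MvPolynomial (eval pderiv)

/-- **The velocity is dead.** -/
def VelF {Ω Λ α ε κ : Type} [Fintype Ω] {d : ℕ} (Q MB k N₀ : ℕ) (δ : ℝ) (q : Ω → ℝ) (L : Ω → Λ)
    (T : Ω → ℕ) (a : Ω → α) (E : Ω → ε) (c : Λ → κ) (ξ : Λ → Fin d → ℝ)
    (n : Λ → Polynomial ℝ) : Prop :=
  CH q (fun ω => ⌊2 ^ (MB - Q) * (Polynomial.derivative (n (L ω))).eval (uu N₀ T ω)⌋)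
    (fun ω => (a ω, (c (L ω), (E ω, xd k L ξ ω)))) ≤ δ * Q

section one

variable {K d D CM Q MB k N₀ : ℕ} {δ : ℝ} {Ω Λ ζ α ε κ : Type} [Fintype Ω] {q : Ω → ℝ}
  {L : Ω → Λ} {T : Ω → ℕ} {Z : Ω → ζ} {a : Ω → α} {E : Ω → ε} {X : ε → Fin (d + 1) → ℝ}
  {Pf : ζ → MvPolynomial (Fin d) ℝ} {Pg : ζ → Fin (d + 1) → MvPolynomial (Fin d) ℝ}
  {c : Λ → κ} {s : Ω → Fin d → ℝ} {ξ : Λ → Fin d → ℝ} {n : Λ → Polynomial ℝ}
  {Θ : Λ → Fin d → Polynomial ℝ}

omit [Fintype Ω] in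
/-- The digits of the position. -/
theorem xd_near (h0 : ∀ l i, 0 ≤ ξ l i) (h1 : ∀ l i, ξ l i < 1) (ω : Ω) (i : Fin d) :
    |ξ (L ω) i - pt k (xd k L ξ ω) i| ≤ 1 / 2 ^ k ∧ xd k L ξ ω i < 2 ^ k := by
  have hk0 : (0 : ℝ) < 2 ^ k := by positivity
  have a1 := h0 (L ω) i
  have a2 := h1 (L ω) i
  have a3 : 0 ≤ 2 ^ k * ξ (L ω) i := by positivity
  have a4 := Nat.floor_le a3
  have a5 := Nat.lt_floor_add_one (2 ^ k * ξ (L ω) i)
  constructor
  · unfold Pool.D2G30.pt xd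
    have e : ξ (L ω) i - (⌊2 ^ k * ξ (L ω) i⌋₊ : ℝ) / 2 ^ k =
        (2 ^ k * ξ (L ω) i - ⌊2 ^ k * ξ (L ω) i⌋₊) / 2 ^ k := by
      field_simp
    rw [e, abs_div, abs_of_pos hk0]
    refine div_le_div_of_nonneg_right ?_ hk0.le
    rw [abs_of_nonneg (by linarith)]
    linarith
  · unfold xd
    rw [Nat.floor_lt a3]
    push_cast
    nlinarith

/-- The constant of the positions. -/
noncomputable def rC (K d : ℕ) : ℝ :=
  (K + 1) ^ d * (d * K ^ 2 * lgC K ^ (d + 1)) * (iC K d * (d + 1)) + 1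

theorem one_le_rC (K d : ℕ) : 1 ≤ rC K d := by
  have h1 := one_le_lgC K
  have h2 := one_le_iC K d
  unfold rC
  have : 0 ≤ ((K : ℝ) + 1) ^ d * (d * K ^ 2 * lgC K ^ (d + 1)) * (iC K d * (d + 1)) := by
    positivity
  linarith

/-- The velocity polynomial at the digits of the position. -/
theorem vel_pt (h : TL K d D CM Q MB k N₀ δ q L T Z a E X Pf Pg c s ξ n Θ) {ω : Ω}
    (hω : 0 < q ω) (hg : ¬ (2 ^ (δ * Q) / 2 ^ (MB - Q) <
      |(Polynomial.derivative (n (L ω))).eval (uu N₀ T ω) -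
        ∑ j, X (E ω) j * eval (fun i => s ω i + ξ (L ω) i) (Pg (Z ω) j)|)) :
    |2 ^ (MB - Q) * eval (fun i => s ω i + pt k (xd k L ξ ω) i) (Gv (X (E ω)) (Pg (Z ω))) -
      2 ^ (MB - Q) * (Polynomial.derivative (n (L ω))).eval (uu N₀ T ω)| ≤
      rC K d * (2 ^ (δ * Q) * 2 ^ (δ * Q)) := by
  have hσ : (0 : ℝ) < 2 ^ (MB - Q) := by positivity
  have hB1 : (1 : ℝ) ≤ 2 ^ (δ * Q) := rpow_ge_one (mul_nonneg h.δ0 (Nat.cast_nonneg Q))
  have hB0 : (0 : ℝ) < 2 ^ (δ * Q) := by linarith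
  have hC := one_le_lgC K
  have hiC := one_le_iC K d
  have hsm : ∀ β : Gr K d, (∀ i, -1 ≤ s ω i + nd K β i) ∧ ∀ i, s ω i + nd K β i ≤ 2 := fun β =>
    ⟨fun i => (sh_mem (h.s1 ω hω) β i).1, fun i => (sh_mem (h.s1 ω hω) β i).2⟩
  have hx := fun i => (xd_near (k := k) (L := L) h.ξ0 h.ξ1 ω i).1
  have hp : ∀ i, xd k L ξ ω i < 2 ^ k := fun i => (xd_near (k := k) (L := L) h.ξ0 h.ξ1 ω i).2
  obtain ⟨P, hP⟩ : ∃ P, P = Gv (X (E ω)) (Pg (Z ω)) := ⟨_, rfl⟩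
  have hPd : P.totalDegree ≤ K := by rw [hP]; exact deg_Gv _ fun j => h.dgg _ j
  have e1 : ∀ y : Fin d → ℝ, eval (fun i => s ω i + y i) P =
      itp (fun β : Gr K d => eval (fun i => s ω i + nd K β i) P) y := by
    intro y
    have h1 := shift_eval h.hK P hPd (s ω) (fun i => s ω i + y i)
    have h2 : (fun i => s ω i + y i - s ω i) = y := by
      funext i
      ring
    rw [h2] at h1
    exact h1
  have b3 := itp_pt (G := fun β : Gr K d => eval (fun i => s ω i + nd K β i) P)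
    (B := iC K d * ((d + 1) * (2 ^ (δ * Q) * 2 ^ (δ * Q))))
    (fun β => by
      rw [hP]
      exact Gv_bd h hω (hsm β).1 (hsm β).2)
    (x := pt k (xd k L ξ ω)) (y := ξ (L ω)) (δ := 1 / 2 ^ k)
    (fun i => by linarith [(pt_mem hp i).1]) (fun i => by linarith [(pt_mem hp i).2])
    (fun i => by linarith [h.ξ0 (L ω) i]) (fun i => by linarith [h.ξ1 (L ω) i]) (by positivity)
    (fun i => by rw [abs_sub_comm]; exact hx i)
  rw [← e1, ← e1] at b3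
  have b6 : (2 : ℝ) ^ (MB - Q) * (1 / 2 ^ k) ≤ 1 := by
    rw [mul_one_div, div_le_one (by positivity)]
    exact pow_le_pow_right₀ (by norm_num) ((Nat.sub_le _ _).trans h.hk)
  have b7 : |2 ^ (MB - Q) * eval (fun i => s ω i + ξ (L ω) i) P -
      2 ^ (MB - Q) * (Polynomial.derivative (n (L ω))).eval (uu N₀ T ω)| ≤ 2 ^ (δ * Q) := by
    rw [not_lt] at hg
    rw [hP, eval_Gv, ← mul_sub, abs_mul, abs_of_pos hσ, abs_sub_comm]
    calc _ ≤ 2 ^ (MB - Q) * (2 ^ (δ * Q) / 2 ^ (MB - Q)) := mul_le_mul_of_nonneg_left hg hσ.le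
      _ = _ := by field_simp
  have b8 : |2 ^ (MB - Q) * eval (fun i => s ω i + pt k (xd k L ξ ω) i) P -
      2 ^ (MB - Q) * eval (fun i => s ω i + ξ (L ω) i) P| ≤
      (K + 1) ^ d * (d * K ^ 2 * lgC K ^ (d + 1)) * (iC K d * (d + 1)) *
        (2 ^ (δ * Q) * 2 ^ (δ * Q)) := by
    rw [← mul_sub, abs_mul, abs_of_pos hσ]
    refine (mul_le_mul_of_nonneg_left b3 hσ.le).trans ?_
    have e2 : (2 : ℝ) ^ (MB - Q) * ((K + 1) ^ d * (d * K ^ 2 * lgC K ^ (d + 1)) *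
        (1 / 2 ^ k * (iC K d * ((d + 1) * (2 ^ (δ * Q) * 2 ^ (δ * Q)))))) =
        (2 ^ (MB - Q) * (1 / 2 ^ k)) * ((K + 1) ^ d * (d * K ^ 2 * lgC K ^ (d + 1)) *
          (iC K d * (d + 1)) * (2 ^ (δ * Q) * 2 ^ (δ * Q))) := by ring
    rw [e2]
    refine (mul_le_mul_of_nonneg_right b6 (by positivity)).trans (le_of_eq (one_mul _))
  rw [← hP]
  have h3 := abs_add_le (2 ^ (MB - Q) * eval (fun i => s ω i + pt k (xd k L ξ ω) i) P -
      2 ^ (MB - Q) * eval (fun i => s ω i + ξ (L ω) i) P)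
    (2 ^ (MB - Q) * eval (fun i => s ω i + ξ (L ω) i) P -
      2 ^ (MB - Q) * (Polynomial.derivative (n (L ω))).eval (uu N₀ T ω))
  rw [sub_add_sub_cancel] at h3
  unfold rC
  have h4 : (2 : ℝ) ^ (δ * Q) ≤ 2 ^ (δ * Q) * 2 ^ (δ * Q) := le_mul_of_one_le_left hB0.le hB1
  nlinarith

/-- The bound of the velocities. -/
noncomputable def mC (K d : ℕ) (MB : ℕ) (B : ℝ) : ℝ := 2 ^ MB * (iC K d * ((d + 1) * (B * B)))

theorem mC_nonneg (K d MB : ℕ) {B : ℝ} : 0 ≤ mC K d MB B := by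
  have := one_le_iC K d
  unfold mC
  exact mul_nonneg (by positivity) (mul_nonneg (by linarith)
    (mul_nonneg (by positivity) (mul_self_nonneg B)))

theorem Gv_mC (h : TL K d D CM Q MB k N₀ δ q L T Z a E X Pf Pg c s ξ n Θ) {ω : Ω}
    (hω : 0 < q ω) {x : Fin d → ℝ} (h0 : ∀ i, -1 ≤ x i) (h1 : ∀ i, x i ≤ 2) :
    |2 ^ (MB - Q) * eval x (Gv (X (E ω)) (Pg (Z ω)))| ≤ mC K d MB (2 ^ (δ * Q)) := by
  have h2 := Gv_bd h hω h0 h1
  rw [abs_mul, abs_of_pos (by positivity : (0 : ℝ) < 2 ^ (MB - Q))]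
  unfold mC
  exact mul_le_mul (pow_le_pow_right₀ (by norm_num) (Nat.sub_le _ _)) h2 (abs_nonneg _)
    (by positivity)

theorem fl_bd {x M : ℝ} (h : |x| ≤ M) : |(⌊x⌋ : ℝ)| ≤ M + 1 := by
  have h4 := Int.floor_le x
  have h5 := Int.lt_floor_add_one x
  rw [abs_le] at h ⊢
  constructor <;> linarith [h.1, h.2]

/-- The velocity at the digits of the position is few bits. -/
theorem vel_own (h : TL K d D CM Q MB k N₀ δ q L T Z a E X Pf Pg c s ξ n Θ)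
    (hv : VelF Q MB k N₀ δ q L T a E c ξ n) {τ : Type} (W : Ω → τ)
    (hW : Det q W (fun ω => (a ω, (c (L ω), (E ω, xd k L ξ ω))))) :
    CH q (fun ω (_ : Unit) => ⌊2 ^ (MB - Q) *
      eval (fun i => s ω i + pt k (xd k L ξ ω) i) (Gv (X (E ω)) (Pg (Z ω)))⌋) W ≤
      δ * Q + (Real.log 2 + (Real.log (2 * (2 * (rC K d * (2 ^ (δ * Q) * 2 ^ (δ * Q))) + 2) + 1) +
        δ * Real.log (4 * (mC K d MB (2 ^ (δ * Q)) + 1) + 1))) := by
  classical
  have hq := h.law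
  have h0 := hq.nonneg
  have hr := one_le_rC K d
  have hB0 : (0 : ℝ) < 2 ^ (δ * Q) := Real.rpow_pos_of_pos (by norm_num) _
  have hm := mC_nonneg K d MB (B := 2 ^ (δ * Q))
  obtain ⟨v, hvv⟩ : ∃ v : Ω → ℤ, v = fun ω =>
    ⌊2 ^ (MB - Q) * (Polynomial.derivative (n (L ω))).eval (uu N₀ T ω)⌋ := ⟨_, rfl⟩
  have c1 : CH q v W ≤ δ * Q := by
    refine (CH_mono_cond h0 hW).trans ?_
    rw [hvv]
    exact hv
  have c2 := CH_le_add h0 (fun ω (_ : Unit) => ⌊2 ^ (MB - Q) *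
      eval (fun i => s ω i + pt k (xd k L ξ ω) i) (Gv (X (E ω)) (Pg (Z ω)))⌋) v W
  have c3 := CH_vecb hq (fun ω (_ : Unit) => ⌊2 ^ (MB - Q) *
      eval (fun i => s ω i + pt k (xd k L ξ ω) i) (Gv (X (E ω)) (Pg (Z ω)))⌋)
    (fun ω => (v ω, W ω)) (fun ω => 2 ^ (δ * Q) / 2 ^ (MB - Q) <
      |(Polynomial.derivative (n (L ω))).eval (uu N₀ T ω) -
        ∑ j, X (E ω) j * eval (fun i => s ω i + ξ (L ω) i) (Pg (Z ω) j)|)
    (M := mC K d MB (2 ^ (δ * Q)) + 1) (D := 2 * (rC K d * (2 ^ (δ * Q) * 2 ^ (δ * Q))) + 2)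
    h.vel (by linarith) (by positivity)
    (by
      intro ω hω _
      have hp : ∀ i, xd k L ξ ω i < 2 ^ k := fun i => (xd_near (k := k) (L := L) h.ξ0 h.ξ1 ω i).2
      refine fl_bd (Gv_mC h hω (fun i => ?_) fun i => ?_)
      · have := (abs_le.1 (h.s1 ω hω i)).1
        linarith [(pt_mem hp i).1]
      · have := (abs_le.1 (h.s1 ω hω i)).2
        linarith [(pt_mem hp i).2])
    (by
      intro ω ω' hω hω' hb hb' hW' _
      have e1 : v ω = v ω' := (Prod.ext_iff.1 hW').1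
      rw [hvv] at e1
      have e2 := (Int.abs_sub_lt_one_of_floor_eq_floor e1).le
      have e3 := vel_pt h hω hb
      have e4 := vel_pt h hω' hb'
      refine (floor_diff _ _).trans ?_
      rw [abs_le] at e2 e3 e4
      have : |2 ^ (MB - Q) * eval (fun i => s ω i + pt k (xd k L ξ ω) i)
          (Gv (X (E ω)) (Pg (Z ω))) - 2 ^ (MB - Q) *
          eval (fun i => s ω' i + pt k (xd k L ξ ω') i) (Gv (X (E ω')) (Pg (Z ω')))| ≤
          2 * (rC K d * (2 ^ (δ * Q) * 2 ^ (δ * Q))) + 1 := by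
        rw [abs_le]
        constructor <;> linarith [e2.1, e2.2, e3.1, e3.2, e4.1, e4.2]
      linarith)
  rw [Fintype.card_unit] at c3
  push_cast at c3
  linarith

end one

end Pool.V1E
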