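import Pool.Agent.H69.CD.Vlf

/-!
# V1 empty: the velocities at the corner grid, from the velocity at the own position

`vel_raw`: copies of the position given the ball and the velocity. `vel_pos`: asymptotic form.
-/

set_option autoImplicit false

namespace Pool.V1E

open Finset Real
open Pool.Agent.H49.Ent Pool.Agent.H32.Dense Pool.STK Pool.D2A Pool.D2Con
open Pool.BFL (Pb)
open Pool.D2G30
open MvPolynomial (eval pderiv)

/-- A variable which is determined is a function. -/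
theorem det_fun {Ω S T : Type} [Nonempty T] {q : Ω → ℝ} {X : Ω → S} {Y : Ω → T}
    (h : Det q X Y) : ∃ f : S → T, ∀ ω, 0 < q ω → f (X ω) = Y ω := by
  classical
  refine ⟨fun x => if hx : ∃ ω, 0 < q ω ∧ X ω = x then Y hx.choose else Classical.arbitrary T,
    fun ω hω => ?_⟩
  have hx : ∃ ω', 0 < q ω' ∧ X ω' = X ω := ⟨ω, hω, rfl⟩
  show (if hx : ∃ ω', 0 < q ω' ∧ X ω' = X ω then Y hx.choose else Classical.arbitrary T) = Y ω
  rw [dif_pos hx]
  exact h _ _ hx.choose_spec.1 hω hx.choose_spec.2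

section one

variable {K d D CM Q MB k N₀ : ℕ} {δ : ℝ} {Ω Λ ζ α ε κ : Type} [Fintype Ω] {q : Ω → ℝ}
  {L : Ω → Λ} {T : Ω → ℕ} {Z : Ω → ζ} {a : Ω → α} {E : Ω → ε} {X : ε → Fin (d + 1) → ℝ}
  {Pf : ζ → MvPolynomial (Fin d) ℝ} {Pg : ζ → Fin (d + 1) → MvPolynomial (Fin d) ℝ}
  {c : Λ → κ} {s : Ω → Fin d → ℝ} {ξ : Λ → Fin d → ℝ} {n : Λ → Polynomial ℝ}
  {Θ : Λ → Fin d → Polynomial ℝ}

/-- The error of the velocity at the digits of the position. -/
noncomputable def oE (K d MB Q : ℕ) (δ : ℝ) : ℝ :=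
  δ * Q + (Real.log 2 + (Real.log (2 * (2 * (rC K d * (2 ^ (δ * Q) * 2 ^ (δ * Q))) + 2) + 1) +
        δ * Real.log (4 * (mC K d MB (2 ^ (δ * Q)) + 1) + 1)))

/-- The probability that the positions are in a hyperplane. -/
noncomputable def pE (K d Q g : ℕ) (δ : ℝ) : ℝ :=
  (2 * (δ * Q) + Real.log 2) / (g * Real.log 2 - Real.log (d * K))

/-- **The velocities at the corner grid are few bits given `(E, a)`**, raw form. -/
theorem vel_raw (h : TL K d D CM Q MB k N₀ δ q L T Z a E X Pf Pg c s ξ n Θ)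
    (hc : CH q (fun ω => c (L ω)) (fun ω => (E ω, a ω)) ≤ δ * Q)
    (hv : VelF Q MB k N₀ δ q L T a E c ξ n) {g : ℕ} (hg : g ≤ k)
    (hw : 0 < g * Real.log 2 - Real.log (d * K)) :
    CH q (fun ω (β : Gr K d) => ⌊2 ^ (MB - Q) * eval (nd K β) (Gv (X (E ω)) (Pg (Z ω)))⌋)
      (fun ω => (E ω, a ω)) ≤
      ((K + 1) ^ d : ℕ) * (2 * (δ * Q) + oE K d MB Q δ) + Real.log 2 +
      ((K + 1) ^ d : ℕ) * (Real.log (2 * (cK ((K + 1) ^ d) (lgC K ^ d)
        ((1 / (iC K d * pA K d g)) ^ ((K + 1) ^ d)) + 1) + 1) +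
        ((K + 1) ^ d : ℕ) * pE K d Q g δ * Real.log (4 * (mC K d MB (2 ^ (δ * Q)) + 1) + 1)) := by
  classical
  have hq := h.law
  have h0 := hq.nonneg
  have hC := one_le_lgC K
  have hiC := one_le_iC K d
  have hpA := pA_pos K d g
  obtain ⟨e0⟩ : Nonempty (Gr K d ≃ Fin ((K + 1) ^ d)) := by
    have := card_grid K d
    exact ⟨Fintype.equivFinOfCardEq this⟩
  obtain ⟨S, hS⟩ := det_fun (T := Fin d → ℝ) h.sc
  -- the letters
  obtain ⟨E', hE'⟩ : ∃ E' : Ω → (κ × (ε × α)) × (Fin d → ℕ), E' = fun ω =>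
    ((c (L ω), (E ω, a ω)), xd k L ξ ω) := ⟨_, rfl⟩
  obtain ⟨X', hX'⟩ : ∃ X' : (κ × (ε × α)) × (Fin d → ℕ) → Fin ((K + 1) ^ d) → ℝ,
    X' = fun (e : (κ × (ε × α)) × (Fin d → ℕ)) (j : Fin ((K + 1) ^ d)) =>
    Pool.D2G30.ell K (e0.symm j) (fun i => S e.1 i + Pool.D2G30.pt k e.2 i) := ⟨_, rfl⟩
  obtain ⟨U, hU⟩ : ∃ U : ζ × ε → Unit → Fin ((K + 1) ^ d) → ℝ, U = fun z _ j =>
    2 ^ (MB - Q) * eval (nd K (e0.symm j)) (Gv (X z.2) (Pg z.1)) := ⟨_, rfl⟩
  have hpt : ∀ ω, 0 < q ω → (∀ i, -1 ≤ s ω i + pt k (xd k L ξ ω) i) ∧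
      ∀ i, s ω i + pt k (xd k L ξ ω) i ≤ 2 := by
    intro ω hω
    have hp : ∀ i, xd k L ξ ω i < 2 ^ k := fun i => (xd_near (k := k) (L := L) h.ξ0 h.ξ1 ω i).2
    refine ⟨fun i => ?_, fun i => ?_⟩
    · have := (abs_le.1 (h.s1 ω hω i)).1
      linarith [(pt_mem hp i).1]
    · have := (abs_le.1 (h.s1 ω hω i)).2
      linarith [(pt_mem hp i).2]
  have hXω : ∀ ω, 0 < q ω → ∀ j, X' (E' ω) j =
      Pool.D2G30.ell K (e0.symm j) (fun i => s ω i + pt k (xd k L ξ ω) i) := by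
    intro ω hω j
    rw [hX', hE']
    show Pool.D2G30.ell K (e0.symm j) (fun i => S (c (L ω), (E ω, a ω)) i + pt k (xd k L ξ ω) i) = _
    rw [hS ω hω]
  have hsum : ∀ ω, 0 < q ω → ∀ b : Unit, ∑ j, X' (E' ω) j * U (Z ω, E ω) b j =
      2 ^ (MB - Q) * eval (fun i => s ω i + pt k (xd k L ξ ω) i) (Gv (X (E ω)) (Pg (Z ω))) := by
    intro ω hω b
    have h1 := ell_interp h.hK (Gv (X (E ω)) (Pg (Z ω))) (deg_Gv _ fun j => h.dgg _ j)
      (fun i => s ω i + pt k (xd k L ξ ω) i)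
    rw [h1, Finset.mul_sum]
    refine Fintype.sum_equiv e0.symm _ _ fun j => ?_
    rw [hXω ω hω j, hU]
    ring
  -- the entropies
  have f1 : CH q (fun ω => c (L ω)) (fun ω => (Z ω, E ω)) ≤ δ * Q :=
    (CH_mono_cond h0 fun ω ω' hω hω' e => by
      obtain ⟨e1, e2⟩ := Prod.ext_iff.1 e
      show (E ω, a ω) = (E ω', a ω')
      rw [show E ω = E ω' from e2, h.Za ω ω' hω hω' e1]).trans hc
  have f2 : d * (k * Real.log 2) - 2 * (δ * Q) ≤ CH q (xd k L ξ)
      (fun ω => (c (L ω), (Z ω, E ω))) := by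
    have h1 := CH_le_add h0 (xd k L ξ) (fun ω => c (L ω)) (fun ω => (Z ω, E ω))
    have h2 := h.full
    linarith
  have hnh : NoHyp q (fun ω => X' (E' ω)) (fun ω => (Z ω, E ω)) (1 / (iC K d * pA K d g))
      (pE K d Q g δ) := by
    intro nn hnn
    rw [Pb_law]
    have h1 := nohyp_pos h.hK h.hd hg hq (fun ω => (Z ω, E ω)) (fun ω => c (L ω)) (xd k L ξ)
      (fun ω hω i => (xd_near (k := k) (L := L) h.ξ0 h.ξ1 ω i).2) s h.s1
      (fun ω ω' hω hω' e => by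
        obtain ⟨e1, e2⟩ := Prod.ext_iff.1 e
        obtain ⟨e3, e4⟩ := Prod.ext_iff.1 e2
        refine h.sc ω ω' hω hω' ?_
        show (c (L ω), (E ω, a ω)) = (c (L ω'), (E ω', a ω'))
        rw [show c (L ω) = c (L ω') from e1, show E ω = E ω' from e4, h.Za ω ω' hω hω' e3])
      f2 (fun z β => nn z (e0 β)) (fun ω hω => by
        obtain ⟨j, hj⟩ := (hnn ω hω).2
        exact ⟨e0.symm j, by simpa using hj⟩)
    unfold pE
    rw [le_div_iff₀ hw]
    refine le_trans (le_of_eq ?_) h1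
    congr 1
    unfold Pb
    refine Finset.sum_congr rfl fun ω _ => ?_
    rcases (h0 ω).lt_or_eq with hω | hω
    swap
    · rw [← hω]
      split_ifs <;> rfl
    have e1 : ∑ j, nn (Z ω, E ω) j * X' (E' ω) j =
        fv K (fun β => nn (Z ω, E ω) (e0 β)) (fun i => s ω i + pt k (xd k L ξ ω) i) := by
      unfold fv
      refine Fintype.sum_equiv e0.symm _ _ fun j => ?_
      rw [hXω ω hω j]
      simp
    show (if |∑ j, nn (Z ω, E ω) j * X' (E' ω) j| ≤ 1 / (iC K d * pA K d g) then q ω else 0) = _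
    rw [e1]
  have hB : (1 : ℝ) ≤ lgC K ^ d := one_le_pow₀ hC
  have hη : (0 : ℝ) < 1 / (iC K d * pA K d g) := by positivity
  have hfree : CH q E' (fun ω => (E ω, a ω)) ≤ CH q E' (fun ω => (Z ω, E ω)) + 2 * (δ * Q) := by
    have g1 : CH q E' (fun ω => (E ω, a ω)) ≤ CH q (fun ω => (c (L ω), xd k L ξ ω))
        (fun ω => (E ω, a ω)) := by
      have h1 := CH_le_add h0 E' (fun ω => (c (L ω), xd k L ξ ω)) (fun ω => (E ω, a ω))
      have h2 : CH q E' (fun ω => ((c (L ω), xd k L ξ ω), (E ω, a ω))) ≤ 0 := by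
        refine CH_nil h0 fun ω ω' _ _ e => ?_
        obtain ⟨e1, e2⟩ := Prod.ext_iff.1 e
        obtain ⟨e3, e4⟩ := Prod.ext_iff.1 e1
        rw [hE']
        show ((c (L ω), (E ω, a ω)), xd k L ξ ω) = ((c (L ω'), (E ω', a ω')), xd k L ξ ω')
        rw [show c (L ω) = c (L ω') from e3, show xd k L ξ ω = xd k L ξ ω' from e4,
          show (E ω, a ω) = (E ω', a ω') from e2]
      linarith
    have g2 := CH_subadd h0 (fun ω => c (L ω)) (xd k L ξ) (fun ω => (E ω, a ω))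
    have g4 : CH q (xd k L ξ) (fun ω => (Z ω, E ω)) ≤ CH q E' (fun ω => (Z ω, E ω)) :=
      CH_mono_left h0 fun ω ω' _ _ e => by
        have e1 := (Prod.ext_iff.1 e).1
        rw [hE'] at e1
        exact (Prod.ext_iff.1 e1).2
    have g6 : CH q (xd k L ξ) (fun ω => (E ω, a ω)) ≤ d * (k * Real.log 2) := by
      have h2 := CH_le_card h0 hq.sum_one (xd k L ξ) (fun ω => (E ω, a ω))
        (fun _ => gbx d k)
        (fun ω hω => mem_gbx.2 fun i => (xd_near (k := k) (L := L) h.ξ0 h.ξ1 ω i).2)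
      rw [Ex_const hq.sum_one, card_gbx] at h2
      push_cast at h2
      rw [Real.log_pow] at h2
      push_cast at h2
      linarith
    have g5 := h.full
    linarith
  have hvel : CH q (fun ω b => ⌊∑ j, X' (E' ω) j * U (Z ω, E ω) b j⌋)
      (fun ω => (E' ω, (E ω, a ω))) ≤ oE K d MB Q δ := by
    refine le_trans (CH_mono_left h0
      fun ω ω' hω hω' e => ?_) (vel_own h hv (fun ω => (E' ω, (E ω, a ω))) ?_)
    · funext b
      show ⌊∑ j, X' (E' ω) j * U (Z ω, E ω) b j⌋ = ⌊∑ j, X' (E' ω') j * U (Z ω', E ω') b j⌋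
      rw [hsum ω hω, hsum ω' hω']
      exact congrFun (Prod.ext_iff.1 e).1 b
    · intro ω ω' _ _ e
      have e1 := (Prod.ext_iff.1 e).1
      rw [hE'] at e1
      obtain ⟨e2, e3⟩ := Prod.ext_iff.1 e1
      obtain ⟨e4, e5⟩ := Prod.ext_iff.1 e2
      obtain ⟨e6, e7⟩ := Prod.ext_iff.1 e5
      exact Prod.ext e7 (Prod.ext e4 (Prod.ext e6 e3))
  have key := cop_grad hq (fun ω => (Z ω, E ω)) (fun ω => (E ω, a ω)) E' X' U
    (B := lgC K ^ d) (M := mC K d MB (2 ^ (δ * Q))) (c := pE K d Q g δ)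
    (η := 1 / (iC K d * pA K d g)) (δ₁ := oE K d MB Q δ) (δ₂ := 2 * (δ * Q))
    (fun ω ω' hω hω' e => by
      obtain ⟨e1, e2⟩ := Prod.ext_iff.1 e
      show (E ω, a ω) = (E ω', a ω')
      rw [show E ω = E ω' from e2, h.Za ω ω' hω hω' e1])
    hB hη (mC_nonneg K d MB)
    (fun ω hω j => by
      rw [hXω ω hω j]
      exact ell_bd _ (hpt ω hω).1 (hpt ω hω).2)
    (fun ω hω b j => by
      rw [hU]
      exact Gv_mC h hω (fun i => by linarith [nd_nonneg (e0.symm j) i])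
        (fun i => by linarith [nd_le_one (e0.symm j) i]))
    hnh hvel hfree
  rw [Fintype.card_unit] at key
  refine le_trans (CH_mono_left h0 fun ω ω' _ _ e => ?_) (key.trans (le_of_eq ?_))
  · funext β
    have h1 := congrFun (Prod.ext_iff.1 e).1 ((), e0 β)
    rw [hU] at h1
    simpa using h1
  · push_cast
    ring

end one

end Pool.V1E
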