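import Pool.Agent.H92.D2.Gst

/-!
# V1 empty: the position reads a polynomial

`ell_shift`: the product basis at a shifted point. `nohyp_pos`: if the digits of the position are
nearly full given `W`, then the vector of the product basis at the position (shifted by `s`, few bits)
is in no hyperplane which is a function of `W`.
-/

set_option autoImplicit false

namespace Pool.V1E

open Finset Real
open Pool.Agent.H49.Ent Pool.Agent.H32.Dense Pool.STK Pool.D2A Pool.D2Con
open Pool.BFL (Pb)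
open Pool.D2G30

theorem lg_shift {K : ℕ} (hK : 1 ≤ K) (j : Fin (K + 1)) (s y : ℝ) :
    lg K j (s + y) = ∑ m : Fin (K + 1), lg K m y * lg K j (s + ((m : ℕ) : ℝ) / K) := by
  classical
  have h1 : ∀ x : ℝ, lg K j x = (lpo K (fun i => if i = j then 1 else 0)).eval x := by
    intro x
    rw [eval_lpo hK]
    simp
  have h2 := lg_interp hK ((lpo K (fun i => if i = j then (1 : ℝ) else 0)).comp
    (Polynomial.C s + Polynomial.X)) (by
      refine Polynomial.natDegree_comp_le.trans ?_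
      have h3 : (Polynomial.C s + Polynomial.X : Polynomial ℝ).natDegree ≤ 1 := by
        refine (Polynomial.natDegree_add_le _ _).trans ?_
        rw [Polynomial.natDegree_C, Polynomial.natDegree_X]
        simp
      calc _ ≤ K * 1 := Nat.mul_le_mul (deg_lpo hK _) h3
        _ = K := mul_one K) y
  rw [h1, Polynomial.eval_comp] at *
  simp only [Polynomial.eval_comp, Polynomial.eval_add, Polynomial.eval_C, Polynomial.eval_X]
    at h2
  rw [h2]
  exact Finset.sum_congr rfl fun m _ => by rw [h1]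

/-- The product basis at a shifted point. -/
theorem ell_shift {K d : ℕ} (hK : 1 ≤ K) (β : Fin d → Fin (K + 1)) (s y : Fin d → ℝ) :
    ell K β (fun i => s i + y i) =
      ∑ γ : Fin d → Fin (K + 1), ell K γ y * ell K β (fun i => s i + nd K γ i) := by
  classical
  unfold Pool.D2G30.ell nd
  calc ∏ i, lg K (β i) (s i + y i)
      = ∏ i, ∑ m : Fin (K + 1), lg K m (y i) * lg K (β i) (s i + ((m : ℕ) : ℝ) / K) :=
        Finset.prod_congr rfl fun i _ => lg_shift hK _ _ _
    _ = ∑ γ : Fin d → Fin (K + 1), ∏ i, lg K (γ i) (y i) *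
          lg K (β i) (s i + ((γ i : ℕ) : ℝ) / K) := by
        rw [Finset.prod_univ_sum, Fintype.piFinset_univ]
    _ = _ := Finset.sum_congr rfl fun γ _ => Finset.prod_mul_distrib

theorem lg_node {K : ℕ} (hK : 1 ≤ K) (j m : Fin (K + 1)) :
    lg K j (((m : ℕ) : ℝ) / K) = if m = j then 1 else 0 := by
  classical
  have h1 := eval_lpo hK (fun i => if i = j then (1 : ℝ) else 0) (((m : ℕ) : ℝ) / K)
  rw [lpo_node hK] at h1
  rw [h1]
  simp

theorem ell_node {K d : ℕ} (hK : 1 ≤ K) (β γ : Fin d → Fin (K + 1)) :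
    ell K β (nd K γ) = if γ = β then 1 else 0 := by
  classical
  unfold Pool.D2G30.ell nd
  rw [Finset.prod_congr rfl fun i _ => lg_node hK (β i) (γ i)]
  by_cases h : γ = β
  · subst h
    simp
  · rw [if_neg h]
    obtain ⟨i, hi⟩ : ∃ i, γ i ≠ β i := by
      by_contra hcon
      push Not at hcon
      exact h (funext hcon)
    exact Finset.prod_eq_zero (Finset.mem_univ i) (if_neg hi)

/-- The form with the normal `v`. -/
noncomputable def fv (K : ℕ) {d : ℕ} (v : (Fin d → Fin (K + 1)) → ℝ) (x : Fin d → ℝ) : ℝ :=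
  ∑ β, v β * ell K β x

theorem fv_shift {K d : ℕ} (hK : 1 ≤ K) (v : (Fin d → Fin (K + 1)) → ℝ) (s y : Fin d → ℝ) :
    fv K v (fun i => s i + y i) = itp (fun γ => fv K v (fun i => s i + nd K γ i)) y := by
  unfold fv itp
  calc ∑ β, v β * ell K β (fun i => s i + y i)
      = ∑ β, ∑ γ, v β * (ell K γ y * ell K β (fun i => s i + nd K γ i)) := by
        refine Finset.sum_congr rfl fun β _ => ?_
        rw [ell_shift hK, Finset.mul_sum]
    _ = ∑ γ, ∑ β, v β * (ell K γ y * ell K β (fun i => s i + nd K γ i)) := Finset.sum_comm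
    _ = _ := Finset.sum_congr rfl fun γ _ => by
        rw [Finset.mul_sum]
        exact Finset.sum_congr rfl fun β _ => by ring

theorem fv_node {K d : ℕ} (hK : 1 ≤ K) (v : (Fin d → Fin (K + 1)) → ℝ)
    (γ : Fin d → Fin (K + 1)) : fv K v (nd K γ) = v γ := by
  classical
  unfold fv
  rw [Finset.sum_congr rfl fun β _ => by rw [ell_node hK β γ]]
  simp

/-- Some value at the shifted nodes is not small. -/
theorem fv_big {K d : ℕ} (hK : 1 ≤ K) (v : (Fin d → Fin (K + 1)) → ℝ) (hv : ∃ β, |v β| = 1)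
    (s : Fin d → ℝ) (hs : ∀ i, |s i| ≤ 1) :
    ∃ γ, 1 / iC K d ≤ |fv K v (fun i => s i + nd K γ i)| := by
  obtain ⟨β, hβ⟩ := hv
  have hiC := one_le_iC K d
  by_contra hcon
  push Not at hcon
  have h1 := fv_shift hK v s (fun i => nd K β i - s i)
  have h2 : (fun i => s i + (nd K β i - s i)) = nd K β := by
    funext i
    ring
  rw [h2, fv_node hK] at h1
  have hne : Nonempty (Fin d → Fin (K + 1)) := ⟨β⟩
  obtain ⟨γ₀, -, hγ₀⟩ := Finset.exists_max_image (Finset.univ : Finset (Fin d → Fin (K + 1)))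
    (fun γ => |fv K v (fun i => s i + nd K γ i)|) ⟨β, Finset.mem_univ _⟩
  obtain ⟨m, hm⟩ : ∃ m : ℝ, m = |fv K v (fun i => s i + nd K γ₀ i)| := ⟨_, rfl⟩
  have hm0 : 0 ≤ m := by rw [hm]; exact abs_nonneg _
  have hm1 : m < 1 / iC K d := by rw [hm]; exact hcon γ₀
  have h3 := ell_sum_near (K := K) (fun γ => fv K v (fun i => s i + nd K γ i)) (fun _ => 0)
    (δ := m) (fun γ => by
      rw [sub_zero, hm]
      exact hγ₀ γ (Finset.mem_univ _)) (x := fun i => nd K β i - s i)
    (fun i => by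
      have := abs_le.1 (hs i)
      have h4 := nd_nonneg β i
      linarith [this.2])
    (fun i => by
      have := abs_le.1 (hs i)
      have h4 := nd_le_one β i
      linarith [this.1])
  simp only [mul_zero, Finset.sum_const_zero, sub_zero] at h3
  unfold itp at h1
  rw [← h1, hβ] at h3
  have h5 : iC K d * m < 1 := by
    rw [lt_div_iff₀ (by linarith)] at hm1
    linarith
  linarith

theorem CH_nil {Ω S T : Type} [Fintype Ω] {q : Ω → ℝ} (h0 : ∀ ω, 0 ≤ q ω) {X : Ω → S} {W : Ω → T}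
    (h : Det q W X) : CH q X W ≤ 0 := by
  unfold CH
  have h1 := H_mono h0 (X := W) (Y := fun ω => (X ω, W ω)) fun ω ω' hω hω' e =>
    Prod.ext (h ω ω' hω hω' e) e
  linarith

section pos

variable {Ω τ κ : Type} [Fintype Ω] {K d k g : ℕ}

/-- The constant of the reading. -/
noncomputable def pA (K d g : ℕ) : ℝ := (1 + (K + 1) ^ d * lgC K ^ d) *
  (2 * 2 ^ ((K * g + K + 1) * d)) + 1

theorem pA_pos (K d g : ℕ) : 0 < pA K d g := by
  have := one_le_lgC K
  unfold pA
  positivity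

/-- **The position is in no hyperplane.** -/
theorem nohyp_pos (hK : 1 ≤ K) (hd : 1 ≤ d) (hg : g ≤ k) {q : Ω → ℝ} (hq : IsLaw q)
    (W : Ω → τ) (c : Ω → κ) (ξ : Ω → Fin d → ℕ) (hξ : ∀ ω, 0 < q ω → ∀ i, ξ ω i < 2 ^ k)
    (s : Ω → Fin d → ℝ) (hs1 : ∀ ω, 0 < q ω → ∀ i, |s ω i| ≤ 1)
    (hs : Det q (fun ω => (c ω, W ω)) s) {e : ℝ}
    (hfull : d * (k * Real.log 2) - e ≤ CH q ξ (fun ω => (c ω, W ω)))
    (n : τ → (Fin d → Fin (K + 1)) → ℝ) (hn : ∀ ω, 0 < q ω → ∃ β, |n (W ω) β| = 1) :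
    Pb q (fun ω => |fv K (n (W ω)) (fun i => s ω i + pt k (ξ ω) i)| ≤ 1 / (iC K d * pA K d g)) *
      (g * Real.log 2 - Real.log (d * K)) ≤ e + Real.log 2 := by
  have h0 := hq.nonneg
  have hiC := one_le_iC K d
  have hpA := pA_pos K d g
  obtain ⟨G, hG⟩ : ∃ G : Ω → (Fin d → Fin (K + 1)) → ℝ, G = fun ω γ =>
    fv K (n (W ω)) (fun i => s ω i + nd K γ i) := ⟨_, rfl⟩
  obtain ⟨σ, hσ⟩ : ∃ σ : ℝ, σ = iC K d * pA K d g := ⟨_, rfl⟩
  have hσ0 : 0 < σ := by rw [hσ]; positivity
  have hcell : CH q (fun ω => cel σ (G ω)) (fun ω => (c ω, W ω)) ≤ 0 := by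
    refine CH_nil h0 fun ω ω' hω hω' h => ?_
    have h1 : s ω = s ω' := hs ω ω' hω hω' h
    have h2 : W ω = W ω' := (Prod.ext_iff.1 h).2
    show cel σ (G ω) = cel σ (G ω')
    rw [hG]
    simp only
    rw [h1, h2]
  have h1 := read_grid hK hd hg hq (fun ω => (c ω, W ω)) ξ hξ G (σ := σ) (lam := 1)
    (A := pA K d g) hfull hcell
    (fun ω => |fv K (n (W ω)) (fun i => s ω i + pt k (ξ ω) i)| ≤ 1 / (iC K d * pA K d g))
    (by
      intro ω hω hE
      rw [← hσ] at hE
      have h2 : itp (G ω) (pt k (ξ ω)) = fv K (n (W ω)) (fun i => s ω i + pt k (ξ ω) i) := by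
        rw [fv_shift hK, hG]
      rw [h2]
      rw [le_div_iff₀ hσ0] at hE
      linarith) hσ0 (le_of_eq rfl)
  rw [add_zero] at h1
  refine le_trans (le_of_eq ?_) h1
  congr 1
  unfold Pb
  refine Finset.sum_congr rfl fun ω _ => ?_
  rcases (h0 ω).lt_or_eq with hω | hω
  swap
  · rw [← hω]
    split_ifs <;> rfl
  obtain ⟨β, hβ⟩ := fv_big hK (n (W ω)) (hn ω hω) (s ω) (hs1 ω hω)
  have hb : ∃ β, pA K d g ≤ σ * |G ω β| := by
    refine ⟨β, ?_⟩
    rw [hG]
    simp only
    calc pA K d g = σ * (1 / iC K d) := by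
          rw [hσ]
          field_simp
      _ ≤ _ := mul_le_mul_of_nonneg_left hβ hσ0.le
  by_cases hE : |fv K (n (W ω)) (fun i => s ω i + pt k (ξ ω) i)| ≤ 1 / (iC K d * pA K d g)
  · rw [if_pos hE, if_pos ⟨hE, hb⟩]
  · rw [if_neg hE, if_neg fun h => hE h.1]

end pos

end Pool.V1E
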