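import Pool.Agent.H69.CD.Vps

/-!
# V1 empty: the velocities at the corner grid, asymptotic form
-/

set_option autoImplicit false

namespace Pool.V1E

open Finset Real
open Pool.Agent.H49.Ent Pool.Agent.H32.Dense Pool.STK Pool.D2A Pool.D2Con
open Pool.BFL (Pb)
open Pool.D2G30
open MvPolynomial (eval pderiv)

/-- The logarithm of the bound of the velocities. -/
theorem log_mC (K d CM : ℕ) : ∃ c : ℝ, 0 ≤ c ∧ ∀ (Q MB : ℕ) (δ : ℝ), 0 ≤ δ → δ ≤ 1 →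
    MB ≤ CM * Q → Real.log (4 * (mC K d MB (2 ^ (δ * Q)) + 1) + 1) ≤ c + (CM + 2) * Q := by
  have hiC := one_le_iC K d
  refine ⟨|Real.log (4 * (iC K d * (d + 1)) + 5)|, abs_nonneg _, fun Q MB δ h0 h1 hM => ?_⟩
  have hQ : (0 : ℝ) ≤ Q := Nat.cast_nonneg Q
  have hx : 0 ≤ δ * Q := mul_nonneg h0 hQ
  have e1 : (2 : ℝ) ^ ((MB : ℝ) + 2 * (δ * Q)) = 2 ^ MB * (2 ^ (δ * Q) * 2 ^ (δ * Q)) := by
    rw [Real.rpow_add (by norm_num), Real.rpow_natCast, two_mul, Real.rpow_add (by norm_num)]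
  have hy1 : 0 ≤ (MB : ℝ) + 2 * (δ * Q) := by positivity
  have hm := mC_nonneg K d MB (B := 2 ^ (δ * Q))
  have h2 := log_le_of (y := 4 * (mC K d MB (2 ^ (δ * Q)) + 1) + 1)
    (c := 4 * (iC K d * (d + 1)) + 5) (x := (MB : ℝ) + 2 * (δ * Q)) (by linarith)
    (by positivity) hy1 (by
      have h2 := rpow_ge_one hy1
      rw [e1] at h2 ⊢
      unfold mC
      nlinarith)
  have h3 : (MB : ℝ) ≤ CM * Q := by exact_mod_cast hM
  have h4 : δ * Q ≤ 1 * Q := mul_le_mul_of_nonneg_right h1 hQ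
  linarith [le_abs_self (Real.log (4 * (iC K d * (d + 1)) + 5))]

/-- The logarithm of the error of the position. -/
theorem log_rC (K d : ℕ) : ∃ c : ℝ, 0 ≤ c ∧ ∀ (Q : ℕ) (δ : ℝ), 0 ≤ δ →
    Real.log (2 * (2 * (rC K d * (2 ^ (δ * Q) * 2 ^ (δ * Q))) + 2) + 1) ≤ c + 2 * (δ * Q) := by
  have hr := one_le_rC K d
  refine ⟨|Real.log (4 * rC K d + 5)|, abs_nonneg _, fun Q δ h0 => ?_⟩
  have hx : 0 ≤ δ * Q := mul_nonneg h0 (Nat.cast_nonneg Q)
  have e1 : (2 : ℝ) ^ (2 * (δ * Q)) = 2 ^ (δ * Q) * 2 ^ (δ * Q) := by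
    rw [two_mul, Real.rpow_add (by norm_num)]
  have hB0 : (0 : ℝ) < 2 ^ (δ * Q) := Real.rpow_pos_of_pos (by norm_num) _
  have h2 := log_le_of (y := 2 * (2 * (rC K d * (2 ^ (δ * Q) * 2 ^ (δ * Q))) + 2) + 1)
    (c := 4 * rC K d + 5) (x := 2 * (δ * Q)) (by positivity) (by positivity) (by positivity) (by
      have h2 := rpow_ge_one (show 0 ≤ 2 * (δ * Q) by positivity)
      rw [e1] at h2 ⊢
      nlinarith)
  linarith [le_abs_self (Real.log (4 * rC K d + 5))]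

/-- The logarithm of the constant of the determinant. -/
theorem log_cK (K d : ℕ) : ∃ c : ℝ, 0 ≤ c ∧ ∀ g : ℕ,
    Real.log (2 * (cK ((K + 1) ^ d) (lgC K ^ d)
      ((1 / (iC K d * pA K d g)) ^ ((K + 1) ^ d)) + 1) + 1) ≤
      c + (((K + 1) ^ d : ℕ) : ℝ) * (K * d * g) := by
  have hC := one_le_lgC K
  have hiC := one_le_iC K d
  obtain ⟨m, hm⟩ : ∃ m : ℕ, m = (K + 1) ^ d := ⟨_, rfl⟩
  obtain ⟨C9, hC9⟩ : ∃ C9 : ℝ, C9 = (1 + (K + 1) ^ d * lgC K ^ d) *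
    (2 * 2 ^ ((K + 1) * d)) + 1 := ⟨_, rfl⟩
  have hC90 : 0 < C9 := by rw [hC9]; positivity
  obtain ⟨C10, hC10⟩ : ∃ C10 : ℝ, C10 = 2 * (m * (m.factorial * (lgC K ^ d) ^ m)) *
    (iC K d * C9) ^ m + 3 := ⟨_, rfl⟩
  have hC100 : 0 < C10 := by rw [hC10]; positivity
  refine ⟨|Real.log C10|, abs_nonneg _, fun g => ?_⟩
  rw [← hm]
  have hpA := pA_pos K d g
  have hp1 : pA K d g ≤ C9 * 2 ^ (K * d * g) := by
    have e3 : (2 : ℝ) ^ ((K * g + K + 1) * d) = 2 ^ (K * d * g) * 2 ^ ((K + 1) * d) := by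
      rw [← pow_add]
      congr 1
      ring
    have e4 : (1 : ℝ) ≤ 2 ^ (K * d * g) := one_le_pow₀ (by norm_num)
    unfold pA
    rw [e3, hC9]
    nlinarith
  have e5 : cK m (lgC K ^ d) ((1 / (iC K d * pA K d g)) ^ m) =
      (m * (m.factorial * (lgC K ^ d) ^ m)) * (iC K d * pA K d g) ^ m := by
    unfold cK
    rw [one_div, inv_pow, div_inv_eq_mul]
  have e6 : (iC K d * pA K d g) ^ m ≤ (iC K d * C9) ^ m * 2 ^ (m * (K * d * g)) := by
    have h1 : iC K d * pA K d g ≤ (iC K d * C9) * 2 ^ (K * d * g) := by nlinarith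
    calc (iC K d * pA K d g) ^ m ≤ ((iC K d * C9) * 2 ^ (K * d * g)) ^ m :=
          pow_le_pow_left₀ (by positivity) h1 m
      _ = _ := by
          rw [mul_pow, ← pow_mul]
          congr 2
          ring
  have h2 := log_le_of (y := 2 * (cK m (lgC K ^ d) ((1 / (iC K d * pA K d g)) ^ m) + 1) + 1)
    (c := C10) (x := ((m * (K * d * g) : ℕ) : ℝ)) (by rw [e5]; positivity) hC100
    (Nat.cast_nonneg _) (by
      rw [e5, Real.rpow_natCast, hC10]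
      have h3 : (1 : ℝ) ≤ 2 ^ (m * (K * d * g)) := one_le_pow₀ (by norm_num)
      have h4 : 0 ≤ (m : ℝ) * (m.factorial * (lgC K ^ d) ^ m) := by positivity
      have h5 := mul_le_mul_of_nonneg_left e6 h4
      nlinarith)
  have h3 : ((m * (K * d * g) : ℕ) : ℝ) = m * (K * d * g) := by push_cast; ring
  rw [h3] at h2
  linarith [le_abs_self (Real.log C10)]

/-- **The velocities at the corner grid are few bits given `(E, a)`.** -/
theorem vel_pos (K d D CM : ℕ) {ε : ℝ} (hε : 0 < ε) : ∃ δ : ℝ, 0 < δ ∧ δ ≤ ε ∧ ∃ Q₀ : ℕ,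
    ∀ {Q MB k N₀ : ℕ}, Q₀ ≤ Q → ∀ {Ω Λ ζ α ε' κ : Type} [Fintype Ω]
    {q : Ω → ℝ} {L : Ω → Λ} {T : Ω → ℕ} {Z : Ω → ζ} {a : Ω → α} {E : Ω → ε'}
    {X : ε' → Fin (d + 1) → ℝ} {Pf : ζ → MvPolynomial (Fin d) ℝ}
    {Pg : ζ → Fin (d + 1) → MvPolynomial (Fin d) ℝ} {c : Λ → κ} {s : Ω → Fin d → ℝ}
    {ξ : Λ → Fin d → ℝ} {n : Λ → Polynomial ℝ} {Θ : Λ → Fin d → Polynomial ℝ},
    TL K d D CM Q MB k N₀ δ q L T Z a E X Pf Pg c s ξ n Θ →
    CH q (fun ω => c (L ω)) (fun ω => (E ω, a ω)) ≤ δ * Q → VelF Q MB k N₀ δ q L T a E c ξ n →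
    CH q (fun ω (β : Gr K d) => ⌊2 ^ (MB - Q) * eval (nd K β) (Gv (X (E ω)) (Pg (Z ω)))⌋)
      (fun ω => (E ω, a ω)) ≤ ε * Q := by
  obtain ⟨c6, hc6, H6⟩ := log_mC K d CM
  obtain ⟨c5, hc5, H5⟩ := log_rC K d
  obtain ⟨c8, hc8, H8⟩ := log_cK K d
  obtain ⟨G, hG⟩ : ∃ G : ℝ, G = (((K + 1) ^ d : ℕ) : ℝ) := ⟨_, rfl⟩
  have hG1 : 1 ≤ G := by
    rw [hG]
    exact_mod_cast Nat.one_le_pow _ _ (Nat.succ_pos K)
  have hG0 : 0 < G := by linarith
  have hKd : (0 : ℝ) ≤ K * d := by positivity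
  have hCM : (0 : ℝ) ≤ CM := Nat.cast_nonneg _
  obtain ⟨ε1, hε1⟩ : ∃ ε1 : ℝ, ε1 = min 1 (ε / (16 * (G * G) * (K * d + 1))) := ⟨_, rfl⟩
  obtain ⟨ε2, hε2⟩ : ∃ ε2 : ℝ, ε2 = ε / (16 * (G * G) * (CM + 3)) := ⟨_, rfl⟩
  have hε10 : 0 < ε1 := by rw [hε1]; exact lt_min one_pos (by positivity)
  have hε11 : ε1 ≤ 1 := by rw [hε1]; exact min_le_left _ _
  have hε12 : ε1 ≤ ε / (16 * (G * G) * (K * d + 1)) := by rw [hε1]; exact min_le_right _ _
  have hε20 : 0 < ε2 := by rw [hε2]; positivity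
  have k1 : G * G * (K * d * ε1) ≤ ε / 16 := by
    have h1 : G * G * (K * d * ε1) ≤
        G * G * (K * d * (ε / (16 * (G * G) * (K * d + 1)))) := by gcongr
    refine h1.trans ?_
    rw [← sub_nonneg]
    have : ε / 16 - G * G * (K * d * (ε / (16 * (G * G) * (K * d + 1)))) =
        ε / (16 * (K * d + 1)) := by
      field_simp
      ring
    rw [this]
    positivity
  have k2 : G * G * (ε2 * (CM + 3)) = ε / 16 := by
    rw [hε2]
    field_simp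
  obtain ⟨δ, hδ⟩ : ∃ δ : ℝ, δ = min (min 1 (ε / (16 * G * (CM + 8)))) (ε1 * ε2 / 16) :=
    ⟨_, rfl⟩
  have d1 : δ ≤ 1 := by rw [hδ]; exact (min_le_left _ _).trans (min_le_left _ _)
  have d2 : δ ≤ ε / (16 * G * (CM + 8)) := by
    rw [hδ]; exact (min_le_left _ _).trans (min_le_right _ _)
  have d3 : δ ≤ ε1 * ε2 / 16 := by rw [hδ]; exact min_le_right _ _
  have hδ0 : 0 < δ := by
    rw [hδ]
    exact lt_min (lt_min one_pos (by positivity)) (by positivity)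
  have d2' : G * (δ * (CM + 8)) ≤ ε / 16 := by
    have h1 : G * (δ * (CM + 8)) ≤ G * (ε / (16 * G * (CM + 8)) * (CM + 8)) := by gcongr
    refine h1.trans (le_of_eq ?_)
    field_simp
  have dε : δ ≤ ε := by
    have h1 : ε / (16 * G * (CM + 8)) ≤ ε := by
      rw [div_le_iff₀ (by positivity)]
      have h2 : (1 : ℝ) ≤ 16 * G * (CM + 8) := by nlinarith
      nlinarith
    exact d2.trans h1
  obtain ⟨c3, hc3⟩ : ∃ c3 : ℝ, c3 = |Real.log (d * K)| := ⟨_, rfl⟩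
  have hc30 : 0 ≤ c3 := by rw [hc3]; exact abs_nonneg _
  obtain ⟨Q₀, hQ₀⟩ := exists_nat_ge (1 + (3 + 4 * c3) / ε1 + 8 / (ε1 * ε2) +
    2 * (2 + G * (2 + c5 + c6) + G * c8 + G * G * (ε2 * c6)) / ε)
  refine ⟨δ, hδ0, dε, Q₀, ?_⟩
  intro Q MB k N₀ hQ Ω Λ ζ α ε' κ _ q L T Z a E X Pf Pg c s ξ n Θ h hc hv
  have hQr : (Q₀ : ℝ) ≤ Q := by exact_mod_cast hQ
  have r1 : 0 ≤ (3 + 4 * c3) / ε1 := by positivity
  have r2 : 0 ≤ 8 / (ε1 * ε2) := by positivity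
  have r3 : 0 ≤ 2 * (2 + G * (2 + c5 + c6) + G * c8 + G * G * (ε2 * c6)) / ε := by positivity
  have hQ1 : 1 ≤ (Q : ℝ) := by linarith
  have q1 : (3 + 4 * c3) / ε1 ≤ Q := by linarith
  have q2 : 8 / (ε1 * ε2) ≤ Q := by linarith
  have q3 : 2 * (2 + G * (2 + c5 + c6) + G * c8 + G * G * (ε2 * c6)) / ε ≤ Q := by linarith
  rw [div_le_iff₀ hε10] at q1
  rw [div_le_iff₀ (by positivity)] at q2
  rw [div_le_iff₀ hε] at q3
  have hQ0 : (0 : ℝ) ≤ Q := by linarith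
  -- the number of digits
  obtain ⟨g, hg⟩ : ∃ g : ℕ, g = ⌊ε1 * Q⌋₊ := ⟨_, rfl⟩
  have hεQ : 0 ≤ ε1 * Q := by positivity
  have hg1 : (g : ℝ) ≤ ε1 * Q := by rw [hg]; exact Nat.floor_le hεQ
  have hg2 : ε1 * Q - 1 ≤ g := by
    rw [hg]
    have := Nat.lt_floor_add_one (ε1 * Q)
    linarith
  have hgk : g ≤ k := by
    have h1 : (g : ℝ) ≤ Q := hg1.trans (mul_le_of_le_one_left (by linarith) hε11)
    have h2 : g ≤ Q := by exact_mod_cast h1
    exact h2.trans (h.hQ.trans h.hk)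
  have l2 : (1 : ℝ) / 2 ≤ Real.log 2 := by
    have := Real.log_two_gt_d9
    linarith
  have l2' := log_two_le_one
  have hlog : Real.log (d * K) ≤ c3 := by rw [hc3]; exact le_abs_self _
  have hw0 : ε1 * Q / 4 ≤ g * Real.log 2 - Real.log (d * K) := by
    have h1 : (ε1 * Q - 1) / 2 ≤ g * Real.log 2 := by
      have h3 : (0 : ℝ) ≤ g := Nat.cast_nonneg _
      have h4 : (g : ℝ) * (1 / 2) ≤ g * Real.log 2 := mul_le_mul_of_nonneg_left l2 h3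
      linarith
    linarith
  have hw : 0 < g * Real.log 2 - Real.log (d * K) := by
    have : 0 < ε1 * Q / 4 := by positivity
    linarith
  have key := vel_raw h hc hv hgk hw
  rw [← hG] at key
  -- the probability
  have hp : pE K d Q g δ ≤ ε2 := by
    unfold pE
    rw [div_le_iff₀ hw]
    have h1 : ε2 * (ε1 * Q / 4) ≤ ε2 * (g * Real.log 2 - Real.log (d * K)) :=
      mul_le_mul_of_nonneg_left hw0 hε20.le
    have h2 : δ * Q ≤ ε1 * ε2 / 16 * Q := mul_le_mul_of_nonneg_right d3 hQ0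
    nlinarith
  have hp0 : 0 ≤ pE K d Q g δ := by
    unfold pE
    have : 0 ≤ Real.log 2 := by linarith
    positivity
  have m1 := H6 Q MB δ hδ0.le d1 h.hMB
  have m2 := H5 Q δ hδ0.le
  have m3 := H8 g
  rw [← hG] at m3
  obtain ⟨lm, hlm⟩ : ∃ lm : ℝ, lm = Real.log (4 * (mC K d MB (2 ^ (δ * Q)) + 1) + 1) :=
    ⟨_, rfl⟩
  have hlm0 : 0 ≤ lm := by
    rw [hlm]
    have := mC_nonneg K d MB (B := 2 ^ (δ * Q))
    exact Real.log_nonneg (by linarith)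
  rw [← hlm] at m1 key
  have o1 : oE K d MB Q δ ≤ 2 + c5 + c6 + δ * (CM + 5) * Q := by
    unfold oE
    rw [← hlm]
    have h1 : δ * lm ≤ δ * (c6 + (CM + 2) * Q) := mul_le_mul_of_nonneg_left m1 hδ0.le
    have h2 : δ * c6 ≤ c6 := mul_le_of_le_one_left hc6 d1
    nlinarith
  have t1 : G * (2 * (δ * Q) + oE K d MB Q δ) ≤ G * (2 + c5 + c6) + ε / 16 * Q := by
    have h1 : G * (2 * (δ * Q) + oE K d MB Q δ) ≤
        G * (2 * (δ * Q) + (2 + c5 + c6 + δ * (CM + 5) * Q)) := by gcongr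
    have h2 := mul_le_mul_of_nonneg_right d2' hQ0
    have h3 : G * (2 * (δ * Q) + (2 + c5 + c6 + δ * (CM + 5) * Q)) =
        G * (2 + c5 + c6) + G * (δ * (CM + 7)) * Q := by ring
    have h4 : G * (δ * (CM + 7)) * Q ≤ G * (δ * (CM + 8)) * Q := by
      gcongr
      norm_num
    linarith
  have t3 : G * Real.log (2 * (cK ((K + 1) ^ d) (lgC K ^ d)
      ((1 / (iC K d * pA K d g)) ^ ((K + 1) ^ d)) + 1) + 1) ≤ G * c8 + ε / 16 * Q := by
    have h1 := mul_le_mul_of_nonneg_left m3 hG0.le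
    have h2 : G * (G * (K * d * g)) ≤ G * (G * (K * d * (ε1 * Q))) := by gcongr
    have h3 := mul_le_mul_of_nonneg_right k1 hQ0
    nlinarith
  have t4 : G * (G * pE K d Q g δ * lm) ≤ G * G * (ε2 * c6) + ε / 16 * Q := by
    have h1 : G * (G * pE K d Q g δ * lm) ≤ G * (G * ε2 * (c6 + (CM + 2) * Q)) := by
      gcongr
    have h2 : G * (G * ε2 * ((CM + 2) * Q)) ≤ G * (G * ε2 * ((CM + 3) * Q)) := by
      gcongr
      norm_num
    have h3 : G * (G * ε2 * ((CM + 3) * Q)) = ε / 16 * Q := by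
      rw [← k2]
      ring
    nlinarith
  have t5 : 0 ≤ ε * Q := by positivity
  rw [mul_add G (Real.log _)] at key
  linarith

end Pool.V1E
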